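import Mathlib
import Pool.Agent.H92.SG.Stmts

/-!
# Board sg7, module KER
The comparison ring for the specialisation `(ℂ⟦X⟧, tX, eX) → (𝔽₃(T), T, 1)`: Laurent
polynomials over `ℤ[x]/Φ`.
-/

namespace Pool.Agent.H21.SG

open Pool.Agent.H92.SG PowerSeries

theorem om3_re : om3.re = -1 / 2 ∧ om3.im = Real.sqrt 3 / 2 := by
  have h : om3 = Complex.exp (((2 * Real.pi / 3 : ℝ) : ℂ) * Complex.I) := by
    unfold om3
    congr 1
    push_cast
    ring
  have e1 : Real.cos (2 * Real.pi / 3) = -1 / 2 := by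
    have : (2 * Real.pi / 3) = Real.pi - Real.pi / 3 := by ring
    rw [this, Real.cos_pi_sub, Real.cos_pi_div_three]
    ring
  have e2 : Real.sin (2 * Real.pi / 3) = Real.sqrt 3 / 2 := by
    have : (2 * Real.pi / 3) = Real.pi - Real.pi / 3 := by ring
    rw [this, Real.sin_pi_sub, Real.sin_pi_div_three]
  rw [h, Complex.exp_ofReal_mul_I_re, Complex.exp_ofReal_mul_I_im]
  exact ⟨e1, e2⟩

theorem th3_ne : th3 ≠ 0 := by
  intro h
  have h1 : th3.im = Real.sqrt 3 := by
    unfold th3
    simp only [Complex.add_im, Complex.mul_im, Complex.one_im, om3_re.2]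
    simp
    ring
  rw [h] at h1
  have : (0 : ℝ) < Real.sqrt 3 := Real.sqrt_pos.2 (by norm_num)
  simp only [Complex.zero_im] at h1
  linarith

theorem constantCoeff_tX : constantCoeff (tX : PowerSeries ℂ) = om3 := by
  change constantCoeff (C om3 * (1 - C th3 * X) * (1 + C th3 * X)⁻¹ : PowerSeries ℂ) = om3
  simp

theorem tX_mul : (tX : PowerSeries ℂ) * (1 + C th3 * X) = C om3 * (1 - C th3 * X) := by
  have h1 : (1 + C th3 * X : PowerSeries ℂ) * (1 + C th3 * X)⁻¹ = 1 :=
    PowerSeries.mul_inv_cancel _ (by simp)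
  change (C om3 * (1 - C th3 * X) * (1 + C th3 * X)⁻¹ : PowerSeries ℂ) * (1 + C th3 * X) = _
  linear_combination (C om3 * (1 - C th3 * X : PowerSeries ℂ)) * h1

/-- the coefficient of `X` in `tX` -/
theorem coeff_tX_ne : coeff 1 (tX : PowerSeries ℂ) ≠ 0 := by
  have h2 := congrArg (coeff 1) tX_mul
  have e1 : (tX : PowerSeries ℂ) * (1 + C th3 * X) =
      (tX : PowerSeries ℂ) + C th3 * ((tX : PowerSeries ℂ) * X) := by ring
  have e2 : (C om3 * (1 - C th3 * X) : PowerSeries ℂ) = C om3 - C (om3 * th3) * X := by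
    rw [map_mul]; ring
  rw [e1, e2, map_add, map_sub, coeff_C_mul, coeff_C_mul] at h2
  have e3 : coeff 1 ((tX : PowerSeries ℂ) * X) = om3 := by
    rw [show (1 : ℕ) = 0 + 1 from rfl, coeff_succ_mul_X, coeff_zero_eq_constantCoeff_apply,
      constantCoeff_tX]
  have e4 : coeff 1 (C om3 : PowerSeries ℂ) = 0 := by
    rw [coeff_C]; simp
  have e5 : coeff 1 (X : PowerSeries ℂ) = 1 := by
    rw [coeff_X]; simp
  rw [e3, e4, e5] at h2
  intro h
  rw [h] at h2
  have : om3 * th3 = 0 := by linear_combination h2 / 2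
  rcases mul_eq_zero.1 this with h | h
  · exact om3_ne h
  · exact th3_ne h

/-- `tX` is transcendental over `ℂ` -/
theorem eval_tX_ne : ∀ (n : ℕ) (P : Polynomial ℂ), P.natDegree = n → P ≠ 0 →
    P.eval₂ (C : ℂ →+* PowerSeries ℂ) (tX : PowerSeries ℂ) ≠ 0 := by
  intro n
  induction n with
  | zero =>
    intro P hn hP
    rw [Polynomial.natDegree_eq_zero] at hn
    obtain ⟨a, rfl⟩ := hn
    rw [Polynomial.eval₂_C]
    intro h
    apply hP
    have h0 : a = 0 := by
      have := congrArg constantCoeff h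
      simpa using this
    rw [h0, map_zero]
  | succ n ih =>
    intro P hn hP
    have hdeg : P.degree ≠ 0 := by
      intro h
      rw [Polynomial.natDegree_eq_of_degree_eq_some h] at hn
      exact absurd hn (by simp)
    obtain ⟨a, ha⟩ := IsAlgClosed.exists_root P hdeg
    have hP' : (Polynomial.X - Polynomial.C a) * (P /ₘ (Polynomial.X - Polynomial.C a)) = P :=
      Polynomial.mul_divByMonic_eq_iff_isRoot.2 ha
    set Q := P /ₘ (Polynomial.X - Polynomial.C a) with hQ
    have hQ0 : Q ≠ 0 := by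
      intro h
      rw [h, mul_zero] at hP'
      exact hP hP'.symm
    have hQn : Q.natDegree = n := by
      have h1 := Polynomial.natDegree_mul (Polynomial.X_sub_C_ne_zero a) hQ0
      rw [hP', hn, Polynomial.natDegree_X_sub_C] at h1
      omega
    have h2 := ih Q hQn hQ0
    rw [← hP', Polynomial.eval₂_mul]
    refine mul_ne_zero ?_ h2
    rw [Polynomial.eval₂_sub, Polynomial.eval₂_X, Polynomial.eval₂_C]
    intro h
    have h3 := congrArg (coeff 1) h
    rw [map_sub, map_zero, coeff_C] at h3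
    simp only [one_ne_zero, if_false, sub_zero] at h3
    exact coeff_tX_ne h3

theorem KER_thm : KerStmt := by
  intro k
  have _hz : NeZero (3 ^ (k + 1)) := ⟨by positivity⟩
  obtain ⟨ζ, hζd⟩ : ∃ ζ : ℂ, ζ = Complex.exp (2 * Real.pi * Complex.I / ((3 ^ (k + 1) : ℕ) : ℂ)) :=
    ⟨_, rfl⟩
  have hζ : IsPrimitiveRoot ζ (3 ^ (k + 1)) := by
    rw [hζd]; exact Complex.isPrimitiveRoot_exp _ (by positivity)
  let Φ : Polynomial ℤ := Polynomial.cyclotomic (3 ^ (k + 1)) ℤ
  have hΦmin : Φ = minpoly ℤ ζ := Polynomial.cyclotomic_eq_minpoly hζ (by positivity)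
  have hΦζ : Φ.eval₂ (Int.castRingHom ℂ) ζ = 0 := by
    rw [hΦmin]
    have := minpoly.aeval ℤ ζ
    rwa [Polynomial.aeval_def] at this
  have hΦ1 : Φ.eval₂ (Int.castRingHom (ZMod 3)) 1 = 0 := by
    rw [← Polynomial.eval_map, Polynomial.map_cyclotomic,
      Polynomial.eval_one_cyclotomic_prime_pow k]
    rfl
  let A0 := AdjoinRoot Φ
  let i : A0 →+* ℂ := AdjoinRoot.lift (Int.castRingHom ℂ) ζ hΦζ
  let r : A0 →+* ZMod 3 := AdjoinRoot.lift (Int.castRingHom (ZMod 3)) 1 hΦ1
  have hi : Function.Injective i := by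
    rw [injective_iff_map_eq_zero]
    intro x hx
    obtain ⟨p, rfl⟩ := AdjoinRoot.mk_surjective x
    change AdjoinRoot.lift (Int.castRingHom ℂ) ζ hΦζ (AdjoinRoot.mk Φ p) = 0 at hx
    rw [AdjoinRoot.lift_mk] at hx
    rw [AdjoinRoot.mk_eq_zero, hΦmin]
    refine minpoly.isIntegrallyClosed_dvd ?_ ?_
    · exact hζ.isIntegral (by positivity)
    · rw [Polynomial.aeval_def]
      exact hx
  have hroot : (AdjoinRoot.root Φ : A0) ^ (3 ^ (k + 1)) = 1 := by
    apply hi
    rw [map_pow, map_one]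
    change (AdjoinRoot.lift (Int.castRingHom ℂ) ζ hΦζ (AdjoinRoot.root Φ)) ^ _ = 1
    rw [AdjoinRoot.lift_root]
    exact hζ.pow_eq_one
  let e0 : AddChar (ZMod (3 ^ (k + 1))) A0 := AddChar.zmodChar (3 ^ (k + 1)) hroot
  let A := LaurentPolynomial A0
  let tA : Aˣ := ⟨LaurentPolynomial.T 1, LaurentPolynomial.T (-1),
    by rw [← LaurentPolynomial.T_add]; simp, by rw [← LaurentPolynomial.T_add]; simp⟩
  let eA : AddChar (ZMod (3 ^ (k + 1))) A :=
    { toFun := fun a => LaurentPolynomial.C (e0 a)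
      map_zero_eq_one' := by simp
      map_add_eq_mul' := fun a b => by rw [AddChar.map_add_eq_mul, map_mul] }
  let f : A →+* RatFunc (ZMod 3) :=
    LaurentPolynomial.eval₂ ((algebraMap (ZMod 3) (RatFunc (ZMod 3))).comp r) tR
  let g : A →+* PowerSeries ℂ :=
    LaurentPolynomial.eval₂ ((C : ℂ →+* PowerSeries ℂ).comp i) tX
  refine ⟨A, inferInstance, tA, eA, f, g, ?_, ?_, ?_, ?_, ?_⟩
  · change LaurentPolynomial.eval₂ _ tR (LaurentPolynomial.T 1) = _
    rw [LaurentPolynomial.eval₂_T]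
    simp [tR]
  · intro a
    change LaurentPolynomial.eval₂ _ tR (LaurentPolynomial.C (e0 a)) = _
    rw [LaurentPolynomial.eval₂_C]
    have : r (e0 a) = 1 := by
      change AdjoinRoot.lift (Int.castRingHom (ZMod 3)) 1 hΦ1
        (AddChar.zmodChar (3 ^ (k + 1)) hroot a) = 1
      rw [AddChar.zmodChar_apply, map_pow, AdjoinRoot.lift_root, one_pow]
    rw [RingHom.comp_apply, this, map_one]
  · change LaurentPolynomial.eval₂ _ tX (LaurentPolynomial.T 1) = _
    rw [LaurentPolynomial.eval₂_T]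
    simp
  · intro a
    change LaurentPolynomial.eval₂ _ tX (LaurentPolynomial.C (e0 a)) = C (eC k a)
    rw [LaurentPolynomial.eval₂_C]
    have : i (e0 a) = eC k a := by
      change AdjoinRoot.lift (Int.castRingHom ℂ) ζ hΦζ
        (AddChar.zmodChar (3 ^ (k + 1)) hroot a) = ZMod.stdAddChar a
      rw [AddChar.zmodChar_apply, map_pow, AdjoinRoot.lift_root]
      have ha : ((a.val : ℤ) : ZMod (3 ^ (k + 1))) = a := by simp
      conv_rhs => rw [← ha]
      rw [ZMod.stdAddChar_coe, hζd, ← Complex.exp_nat_mul]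
      congr 1
      push_cast
      ring
    rw [RingHom.comp_apply, this]
  · intro x hx
    have hx0 : x = 0 := by
      obtain ⟨n, P, hP⟩ := LaurentPolynomial.exists_T_pow x
      have h1 : g (Polynomial.toLaurent P) = 0 := by rw [hP, map_mul, hx, zero_mul]
      have h2 : g (Polynomial.toLaurent P) =
          (P.map i).eval₂ (C : ℂ →+* PowerSeries ℂ) (tX : PowerSeries ℂ) := by
        change LaurentPolynomial.eval₂ _ tX (Polynomial.toLaurent P) = _
        rw [LaurentPolynomial.eval₂_toLaurent, Polynomial.eval₂_map]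
      have h3 : P.map i = 0 := by
        by_contra h
        exact eval_tX_ne _ _ rfl h (by rw [← h2, h1])
      have h4 : P = 0 := by
        apply Polynomial.map_injective i hi
        rw [h3, Polynomial.map_zero]
      rw [h4, map_zero] at hP
      have h5 : x * LaurentPolynomial.T n * LaurentPolynomial.T (-n) = 0 := by
        rw [← hP, zero_mul]
      rw [mul_assoc, ← LaurentPolynomial.T_add] at h5
      simpa using h5
    rw [hx0, map_zero]

end Pool.Agent.H21.SG
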