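import Mathlib
import Pool.Agent.H92.SG.Stmts

/-!
# Board sg7, module SS
Stabilisation by a band which moves the last strand.
-/

namespace Pool.Agent.H21.SG

open Pool.Agent.H92.SG

theorem IsBand_mono {m n : ℕ} (h : m ≤ n) {x : B} (hx : IsBand m x) : IsBand n x := by
  obtain ⟨w, hw, i, hi, h'⟩ := hx
  exact ⟨w, Bn_mono h hw, i, by omega, h'⟩

theorem IsBand_inv {n : ℕ} {x : B} (hx : IsBand n x) : IsBand n x⁻¹ := by
  obtain ⟨w, hw, i, hi, h' | h'⟩ := hx
  · exact ⟨w, hw, i, hi, Or.inr (by rw [h']; group)⟩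
  · exact ⟨w, hw, i, hi, Or.inl (by rw [h']; group)⟩

theorem IsBand_conj {n : ℕ} {x g : B} (hg : g ∈ Bn n) (hx : IsBand n x) :
    IsBand n (g * x * g⁻¹) := by
  obtain ⟨w, hw, i, hi, h' | h'⟩ := hx
  · exact ⟨g * w, (Bn n).mul_mem hg hw, i, hi, Or.inl (by rw [h']; group)⟩
  · exact ⟨g * w, (Bn n).mul_mem hg hw, i, hi, Or.inr (by rw [h']; group)⟩

theorem IsBand_mem {n : ℕ} {x : B} (hx : IsBand n x) : x ∈ Bn n := by
  obtain ⟨w, hw, i, hi, h' | h'⟩ := hx
  · rw [h']
    exact (Bn n).mul_mem ((Bn n).mul_mem hw (σ_mem_Bn hi)) ((Bn n).inv_mem hw)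
  · rw [h']
    exact (Bn n).mul_mem ((Bn n).mul_mem hw ((Bn n).inv_mem (σ_mem_Bn hi))) ((Bn n).inv_mem hw)

theorem band_invol {n : ℕ} {x : B} (hx : IsBand n x) (i : ℕ) : perm x (perm x i) = i := by
  have key : perm x * perm x = 1 := by
    obtain ⟨w, hw, i, hi, h' | h'⟩ := hx
    · rw [h', map_mul, map_mul, map_inv, perm_σ]
      have : Equiv.swap i (i + 1) * Equiv.swap i (i + 1) = 1 := Equiv.swap_mul_self _ _
      calc perm w * Equiv.swap i (i + 1) * (perm w)⁻¹ * (perm w * Equiv.swap i (i + 1) * (perm w)⁻¹)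
          = perm w * (Equiv.swap i (i + 1) * Equiv.swap i (i + 1)) * (perm w)⁻¹ := by group
        _ = 1 := by rw [this]; group
    · rw [h', map_mul, map_mul, map_inv, map_inv, perm_σ, Equiv.swap_inv]
      have : Equiv.swap i (i + 1) * Equiv.swap i (i + 1) = 1 := Equiv.swap_mul_self _ _
      calc perm w * Equiv.swap i (i + 1) * (perm w)⁻¹ * (perm w * Equiv.swap i (i + 1) * (perm w)⁻¹)
          = perm w * (Equiv.swap i (i + 1) * Equiv.swap i (i + 1)) * (perm w)⁻¹ := by group
        _ = 1 := by rw [this]; group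
  have := congrArg (fun f : Equiv.Perm ℕ => f i) key
  simpa using this

theorem prod_conj (g : B) (l : List B) :
    (l.map (fun x => g * x * g⁻¹)).prod = g * l.prod * g⁻¹ := by
  induction l with
  | nil => simp
  | cons x l ih => rw [List.map_cons, List.prod_cons, ih, List.prod_cons]; group

theorem SS_thm (hTAU : TauStmt) (hPERM : PermStmt) : SurfStabStmt := by
  intro n β b e hn hβ hb hbn
  constructor
  · rintro ⟨c, l, hl, hprod, hlen, hconn⟩
    obtain ⟨τ, hτ, hcomm, hfix, hmove⟩ := hTAU n c 1
    refine ⟨c, l.map (fun x => τ * x * τ⁻¹) ++ [b], ?_, ?_, ?_, ?_⟩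
    · intro x hx
      rw [List.mem_append, List.mem_map, List.mem_singleton] at hx
      rcases hx with ⟨y, hy, rfl⟩ | rfl
      · exact IsBand_conj hτ (IsBand_mono (by omega) (hl y hy))
      · exact IsBand_mono (by omega) hb
    · rw [List.prod_append, prod_conj, hprod, hcomm β hβ, List.prod_singleton]
      group
    · rw [List.length_append, List.length_map, List.length_singleton]
      omega
    · intro S h0 hS
      have h1 : ∀ i < n + c, perm τ i ∈ S := by
        refine hconn {i | perm τ i ∈ S} ?_ ?_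
        · change perm τ 0 ∈ S
          rw [hfix 0 hn]
          exact h0
        · intro x hx i hi
          have h2 := hS (τ * x * τ⁻¹) (by
            rw [List.mem_append]
            exact Or.inl (List.mem_map.2 ⟨x, hx, rfl⟩)) (perm τ i) hi
          change perm τ (perm x i) ∈ S
          rw [map_mul, map_mul, map_inv, Equiv.Perm.mul_apply, Equiv.Perm.mul_apply] at h2
          simpa using h2
      have h3 : ∀ i < n, i ∈ S := by
        intro i hi
        have := h1 i (by omega)
        rwa [hfix i hi] at this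
      have h4 : n ∈ S := by
        have h5 : perm b n < n := by
          have := (hPERM (n + 1) b (IsBand_mem hb)).2 n (by omega)
          omega
        have h6 := hS b (by simp) (perm b n) (h3 _ h5)
        rwa [band_invol hb] at h6
      intro i hi
      rcases lt_trichotomy i n with h | h | h
      · exact h3 i h
      · rw [h]; exact h4
      · obtain ⟨j, rfl⟩ : ∃ j, i = n + 1 + j := ⟨i - (n + 1), by omega⟩
        have h7 := h1 (n + j) (by omega)
        rwa [hmove j (by omega)] at h7
  · rintro ⟨c, l, hl, hprod, hlen, hconn⟩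
    refine ⟨c + 1, l ++ [b⁻¹], ?_, ?_, ?_, ?_⟩
    · intro x hx
      rw [List.mem_append, List.mem_singleton] at hx
      rcases hx with hx | rfl
      · exact IsBand_mono (by omega) (hl x hx)
      · exact IsBand_mono (by omega) (IsBand_inv hb)
    · rw [List.prod_append, hprod, List.prod_singleton]
      group
    · rw [List.length_append, List.length_singleton]
      omega
    · intro S h0 hS i hi
      exact hconn S h0 (fun x hx => hS x (List.mem_append.2 (Or.inl hx))) i (by omega)

end Pool.Agent.H21.SG
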