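import Mathlib
import Pool.Agent.H92.SG.Stmts
import Pool.Agent.H21.SG.SS

/-!
# Board sg7, module MKS
Stabilisation of a marked braid.
-/

namespace Pool.Agent.H21.SG

open Pool.Agent.H92.SG

theorem perm_sh (x : B) : ∀ i, perm (sh x) (i + 1) = perm x i + 1 := by
  induction x using B_induction with
  | h1 => intro i; simp
  | hs j =>
    intro i
    rw [sh_σ, perm_σ, perm_σ, Equiv.swap_apply_def, Equiv.swap_apply_def]
    split_ifs <;> omega
  | hm x y hx hy =>
    intro i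
    rw [map_mul, map_mul, map_mul, Equiv.Perm.mul_apply, Equiv.Perm.mul_apply, hy, hx]
  | hi x hx =>
    intro i
    rw [map_inv, map_inv, map_inv, Equiv.Perm.inv_eq_iff_eq, hx]
    simp

theorem sh_mem {n : ℕ} {x : B} (hx : x ∈ Bn n) : sh x ∈ Bn (n + 1) := by
  refine Bn_induction (n := n) (p := fun x => sh x ∈ Bn (n + 1)) ?_ ?_ ?_ ?_ hx
  · rw [map_one]; exact (Bn (n + 1)).one_mem
  · intro i hi
    rw [sh_σ]; exact σ_mem_Bn (by omega)
  · intro x _ y _ hx hy
    rw [map_mul]; exact (Bn (n + 1)).mul_mem hx hy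
  · intro x _ hx
    rw [map_inv]; exact (Bn (n + 1)).inv_mem hx

theorem sh_band {n : ℕ} {x : B} (hx : IsBand n x) : IsBand (n + 1) (sh x) := by
  obtain ⟨w, hw, i, hi, h' | h'⟩ := hx
  · refine ⟨sh w, sh_mem hw, i + 1, by omega, Or.inl ?_⟩
    rw [h', map_mul, map_mul, map_inv, sh_σ]
  · refine ⟨sh w, sh_mem hw, i + 1, by omega, Or.inr ?_⟩
    rw [h', map_mul, map_mul, map_inv, map_inv, sh_σ]

theorem hp_mem (p : ℕ) : hp p ∈ Bn (p + 3 + 1) := by
  induction p with
  | zero => exact (Bn _).one_mem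
  | succ p ih => exact (Bn _).mul_mem (Bn_mono (by omega) ih) (σ_mem_Bn (by omega))

theorem β77_mem : β77 ∈ Bn 4 := by
  have h : ∀ i < 3, σ i ∈ Bn 4 := fun i hi => σ_mem_Bn (by omega)
  have h' : ∀ i < 3, (σ i)⁻¹ ∈ Bn 4 := fun i hi => (Bn 4).inv_mem (h i hi)
  unfold β77
  exact (Bn 4).mul_mem ((Bn 4).mul_mem ((Bn 4).mul_mem ((Bn 4).mul_mem ((Bn 4).mul_mem
    ((Bn 4).mul_mem (h' 0 (by omega)) (h 1 (by omega))) (h' 0 (by omega))) (h 1 (by omega)))
    (h' 2 (by omega))) (h 1 (by omega))) (h' 2 (by omega))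

/-- the marked knot -/
noncomputable def mk77 (p : ℕ) : B := (hp p)⁻¹ * β77 * hp p

theorem mk77_mem {N p : ℕ} (h : p < N) : mk77 p ∈ Bn (N + 3) := by
  have h1 : hp p ∈ Bn (N + 3) := Bn_mono (by omega) (hp_mem p)
  have h2 : β77 ∈ Bn (N + 3) := Bn_mono (by omega) β77_mem
  exact (Bn _).mul_mem ((Bn _).mul_mem ((Bn _).inv_mem h1) h2) h1

theorem sh3_mul (x y : B) : (sh^[3]) (x * y) = (sh^[3]) x * (sh^[3]) y := by
  simp only [Function.iterate_succ, Function.iterate_zero, Function.comp_apply, id, map_mul]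

theorem sh3_mem {n : ℕ} {x : B} (hx : x ∈ Bn n) : (sh^[3]) x ∈ Bn (n + 3) := by
  simp only [Function.iterate_succ, Function.iterate_zero, Function.comp_apply, id]
  exact sh_mem (sh_mem (sh_mem hx))

theorem sh3_band {n : ℕ} {x : B} (hx : IsBand n x) : IsBand (n + 3) ((sh^[3]) x) := by
  simp only [Function.iterate_succ, Function.iterate_zero, Function.comp_apply, id]
  exact sh_band (sh_band (sh_band hx))

theorem perm_sh3 (x : B) (i : ℕ) : perm ((sh^[3]) x) (i + 3) = perm x i + 3 := by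
  simp only [Function.iterate_succ, Function.iterate_zero, Function.comp_apply, id]
  rw [show i + 3 = (i + 2) + 1 from rfl, perm_sh, show i + 2 = (i + 1) + 1 from rfl, perm_sh,
    perm_sh]

theorem MKS_thm (hSS : SurfStabStmt) (hPERM : PermStmt) : MkStabStmt := by
  intro N W b p e hW hp hb hbN
  have hM := mk77_mem hp
  have hM1 : mk77 p ∈ Bn (N + 3 + 1) := Bn_mono (by omega) hM
  have hfix : perm (mk77 p) (N + 3) = N + 3 := (hPERM (N + 3) _ hM).1 (N + 3) le_rfl
  have key := hSS (N + 3) ((sh^[3]) W * mk77 p) ((mk77 p)⁻¹ * (sh^[3]) b * mk77 p) e (by omega)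
    ((Bn _).mul_mem (sh3_mem hW) hM)
    (by
      have := IsBand_conj ((Bn _).inv_mem hM1) (sh3_band hb)
      rwa [inv_inv] at this)
    (by
      rw [map_mul, map_mul, map_inv, Equiv.Perm.mul_apply, Equiv.Perm.mul_apply, hfix, perm_sh3]
      intro h
      rw [Equiv.Perm.inv_eq_iff_eq, hfix] at h
      omega)
  have h1 : (sh^[3]) W * mk77 p * ((mk77 p)⁻¹ * (sh^[3]) b * mk77 p) =
      (sh^[3]) (W * b) * mk77 p := by
    rw [sh3_mul]; group
  rw [h1] at key
  exact key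

end Pool.Agent.H21.SG
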